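import Pool.Agent.Q231.Jump.Base

/-!
# Improving response cycles in variety-seeking jump games with two empty nodes

The claim that all variety-seeking jump games with exactly two empty nodes are potential games is
false: there is a connected 4-regular graph with nine nodes, with seven agents of four types (and two
empty nodes), and a cycle of 24 improving jumps.  For every `k ≥ 4` there is such a game with `k`
types.
-/

set_option autoImplicit false

namespace Pool.Agent.Results.MP_3e19fa_lc.CycleWithTwoEmptyNodes

open Pool.Agent.Q231.Jump

/-- (1) There is a connected 4-regular graph with `9` nodes and an assignment of four types to `7`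
agents such that the game, which has exactly two empty nodes, has an improving response cycle.
(2) For every `k ≥ 4` there is a game with `k` types on a connected graph with exactly two empty nodes
which has an improving response cycle. -/
theorem result :
    (∃ (G : SimpleGraph (Fin 9)) (typ : Fin 7 → Fin 4), G.Connected ∧
      (∀ v, (G.neighborSet v).ncard = 4) ∧ Function.Surjective typ ∧
      HasImprovingResponseCycle G typ) ∧
    ∀ k : ℕ, 4 ≤ k → ∃ (V A : Type) (_ : Fintype V) (_ : Fintype A) (G : SimpleGraph V)
      (typ : A → Fin k), Fintype.card V = Fintype.card A + 2 ∧ G.Connected ∧
      Function.Surjective typ ∧ HasImprovingResponseCycle G typ := by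
  refine ⟨⟨G9, typ7, connected9, fun v => ?_, by decide, cycle9⟩, fun k hk => good4.of_le hk⟩
  have h : ∀ v, (Finset.univ.filter fun w => G9.Adj v w).card = 4 := by decide
  rw [← h v, ← Set.ncard_coe_finset]
  congr 1
  ext w
  simp

end Pool.Agent.Results.MP_3e19fa_lc.CycleWithTwoEmptyNodes
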